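import Mathlib

/-!
MP_ea1cff_co.  For every `r ≥ 3` the chromatic number of the Kneser hypergraph `KG^r(T_n)` of the
triangulations of the convex `n`-gon is at most `⌊(n - 3) / (r - 1)⌋` for all `n ≥ 3 r - 1`, so the
conjectured value `⌈(n - r) / (r - 1)⌉` is wrong for every `n ≥ 3 r - 1` with
`n ≡ 2 (mod r - 1)`.

The vertices of the `n`-gon are labelled `0, …, n - 1`.  A triangulation is coloured by means of its
ears (vertices `w` such that `{w - 1, w + 1}` is a diagonal of the triangulation).  The crucial fact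
is that two disjoint triangulations never have separated ear sets (`common_diagonal`).
-/

set_option autoImplicit false

namespace Pool.Agent.Results.MP_ea1cff_co.AllUniformities

open Finset

/-- `(i, j)` is a diagonal of the convex `n`-gon with vertices `0, …, n - 1` in cyclic order:
`i < j`, and `i` and `j` are not cyclically adjacent. -/
def IsDiagonal (n : ℕ) (d : ℕ × ℕ) : Prop :=
  d.1 < d.2 ∧ d.2 < n ∧ d.2 ≠ d.1 + 1 ∧ ¬ (d.1 = 0 ∧ d.2 = n - 1)

/-- Two diagonals `(i, j)` with `i < j` cross if their end points interleave. -/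
def Crossing (d e : ℕ × ℕ) : Prop :=
  (d.1 < e.1 ∧ e.1 < d.2 ∧ d.2 < e.2) ∨ (e.1 < d.1 ∧ d.1 < e.2 ∧ e.2 < d.2)

/-- A triangulation of the convex `n`-gon: a set of `n - 3` pairwise noncrossing diagonals. -/
def IsTriangulation (n : ℕ) (T : Finset (ℕ × ℕ)) : Prop :=
  (∀ d ∈ T, IsDiagonal n d) ∧ (∀ d ∈ T, ∀ e ∈ T, ¬ Crossing d e) ∧ T.card = n - 3

/-- The set `𝒯_n` of triangulations of the convex `n`-gon. -/
abbrev Tri (n : ℕ) : Type := {T : Finset (ℕ × ℕ) // IsTriangulation n T}

/-- The edges of `KG^r(𝒯_n)`: collections of `r` pairwise disjoint triangulations. -/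
def IsEdge (r n : ℕ) (F : Finset (Tri n)) : Prop :=
  F.card = r ∧ ∀ S ∈ F, ∀ T ∈ F, S ≠ T → Disjoint S.1 T.1

/-- `KG^r(𝒯_n)` has a proper colouring with `k` colours: no edge is monochromatic. -/
def Colorable (r n k : ℕ) : Prop :=
  ∃ c : Tri n → Fin k, ∀ F : Finset (Tri n), IsEdge r n F → ∃ S ∈ F, ∃ T ∈ F, c S ≠ c T

/-- The chromatic number of `KG^r(𝒯_n)`. -/
noncomputable def chi (r n : ℕ) : ℕ := sInf {k | Colorable r n k}

/-- A set of pairwise noncrossing diagonals has at most `n - 3` elements. -/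
lemma card_le_of_noncrossing {n : ℕ} (hn : 3 ≤ n) (T : Finset (ℕ × ℕ))
    (h1 : ∀ d ∈ T, IsDiagonal n d) (h2 : ∀ d ∈ T, ∀ e ∈ T, ¬ Crossing d e) :
    T.card ≤ n - 3 := by
  classical
  let m : ℕ × ℕ → ℕ := fun d =>
    Nat.findGreatest (fun w => w = d.1 + 1 ∨ (d.1, w) ∈ T) (d.2 - 1)
  have hroot : (0, n - 1) ∉ T := fun h => (h1 _ h).2.2.2 ⟨rfl, rfl⟩
  have hd2 : ∀ d ∈ insert (0, n - 1) T, d.1 + 2 ≤ d.2 ∧ d.2 < n := by
    intro d hd
    rw [mem_insert] at hd
    rcases hd with rfl | hd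
    · simp only; omega
    · have h := h1 d hd
      unfold IsDiagonal at h
      omega
  have hgr : ∀ d ∈ insert (0, n - 1) T, ∀ w, w < d.2 → (w = d.1 + 1 ∨ (d.1, w) ∈ T) →
      w ≤ m d := by
    intro d hd w hw h
    exact Nat.le_findGreatest (by omega) h
  have hm : ∀ d ∈ insert (0, n - 1) T, d.1 < m d ∧ m d < d.2 ∧
      (m d = d.1 + 1 ∨ (d.1, m d) ∈ T) := by
    intro d hd
    have h3 := hd2 d hd
    have h4 := hgr d hd (d.1 + 1) (by omega) (Or.inl rfl)
    refine ⟨by omega, ?_, ?_⟩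
    · have : m d ≤ d.2 - 1 := Nat.findGreatest_le _
      omega
    · exact Nat.findGreatest_spec (P := fun w => w = d.1 + 1 ∨ (d.1, w) ∈ T) (m := d.1 + 1)
        (n := d.2 - 1) (by omega) (Or.inl rfl)
  have hmemT : ∀ d ∈ insert (0, n - 1) T, (0 < d.1 ∨ d.2 < n - 1) → d ∈ T := by
    intro d hd h
    rw [mem_insert] at hd
    rcases hd with rfl | hd
    · simp only at h; omega
    · exact hd
  -- the crucial asymmetric statement
  have key : ∀ d ∈ insert (0, n - 1) T, ∀ e ∈ insert (0, n - 1) T, m d = m e →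
      d.1 < e.1 → False := by
    intro d hd e he hde hlt
    have hmd := hm d hd
    have hme := hm e he
    have hd' := hd2 d hd
    have he' := hd2 e he
    have heT := hmemT e he (Or.inl (by omega))
    -- e is inside d
    have h5 : e.2 ≤ d.2 := by
      by_contra hcon
      push Not at hcon
      have hdT := hmemT d hd (Or.inr (by omega))
      exact h2 d hdT e heT (Or.inl ⟨hlt, by omega, hcon⟩)
    rcases hmd.2.2 with h6 | h6
    · omega
    · exact h2 _ h6 e heT (Or.inl ⟨hlt, by simp only; omega, by simp only; omega⟩)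
  have key2 : ∀ d ∈ insert (0, n - 1) T, ∀ e ∈ insert (0, n - 1) T, m d = m e →
      d.1 = e.1 → d.2 < e.2 → False := by
    intro d hd e he hde heq hlt
    have hmd := hm d hd
    have hdT := hmemT d hd (Or.inr (by have := hd2 e he; omega))
    have h7 := hgr e he d.2 hlt (Or.inr (by rw [← heq]; exact hdT))
    omega
  have hinj : Set.InjOn m (insert (0, n - 1) T : Finset (ℕ × ℕ)) := by
    intro d hd e he hde
    rw [mem_coe] at hd he
    rcases Nat.lt_trichotomy d.1 e.1 with h | h | h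
    · exact (key d hd e he hde h).elim
    · rcases Nat.lt_trichotomy d.2 e.2 with h' | h' | h'
      · exact (key2 d hd e he hde h h').elim
      · exact Prod.ext h h'
      · exact (key2 e he d hd hde.symm h.symm h').elim
    · exact (key e he d hd hde.symm h).elim
  have hcard := Finset.card_le_card_of_injOn (s := insert (0, n - 1) T) (t := Finset.Icc 1 (n - 2))
    m (by
      intro d hd
      have h := hm d (mem_coe.1 hd)
      have h' := hd2 d (mem_coe.1 hd)
      rw [mem_coe, Finset.mem_Icc]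
      omega) hinj
  rw [card_insert_of_notMem hroot, Nat.card_Icc] at hcard
  omega

/-- A triangulation is a maximal set of noncrossing diagonals. -/
lemma exists_crossing {n : ℕ} (hn : 3 ≤ n) {T : Finset (ℕ × ℕ)} (hT : IsTriangulation n T)
    {d : ℕ × ℕ} (hd : IsDiagonal n d) (hdT : d ∉ T) : ∃ e ∈ T, Crossing d e := by
  classical
  by_contra hcon
  push Not at hcon
  have h := card_le_of_noncrossing hn (insert d T) (by
    intro e he
    rw [mem_insert] at he
    rcases he with rfl | he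
    · exact hd
    · exact hT.1 e he) (by
    intro e he f hf
    rw [mem_insert] at he hf
    rcases he with rfl | he
    · rcases hf with rfl | hf
      · unfold Crossing; omega
      · exact hcon f hf
    · rcases hf with rfl | hf
      · intro h
        refine hcon e he ?_
        unfold Crossing at h ⊢
        omega
      · exact hT.2.1 e he f hf)
  rw [card_insert_of_notMem hdT, hT.2.2] at h
  omega

/-- The relation on the integers lifted from a set of diagonals. -/
def D (n : ℕ) (T : Finset (ℕ × ℕ)) (i j : ℤ) : Prop :=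
  ∃ a b : ℕ, (a : ℤ) = i % n ∧ (b : ℤ) = j % n ∧ ((a, b) ∈ T ∨ (b, a) ∈ T)

lemma D_symm {n : ℕ} {T : Finset (ℕ × ℕ)} {i j : ℤ} (h : D n T i j) : D n T j i := by
  obtain ⟨a, b, ha, hb, h⟩ := h
  exact ⟨b, a, hb, ha, h.symm⟩

lemma D_add_right {n : ℕ} {T : Finset (ℕ × ℕ)} {i j : ℤ} (h : D n T i j) : D n T i (j + n) := by
  obtain ⟨a, b, ha, hb, h⟩ := h
  exact ⟨a, b, ha, by rw [hb]; simp, h⟩

lemma D_sub_right {n : ℕ} {T : Finset (ℕ × ℕ)} {i j : ℤ} (h : D n T i j) : D n T i (j - n) := by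
  obtain ⟨a, b, ha, hb, h⟩ := h
  exact ⟨a, b, ha, by rw [hb]; simp, h⟩

lemma exists_base {n : ℕ} (hn : 3 ≤ n) (i : ℤ) : ∃ c : ℤ, 0 ≤ i - n * c ∧ i - n * c < n := by
  refine ⟨i / n, ?_, ?_⟩
  · have := Int.emod_nonneg i (show (n : ℤ) ≠ 0 by omega)
    have h2 := Int.emod_def i n
    omega
  · have := Int.emod_lt_of_pos i (show (0 : ℤ) < n by omega)
    have h2 := Int.emod_def i n
    omega

lemma emod_eq {n : ℕ} {i c : ℤ} (h0 : 0 ≤ i - n * c) (h1 : i - n * c < n) :
    i % n = i - n * c := by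
  have h : i = (i - n * c) + n * c := by ring
  conv_lhs => rw [h]
  rw [Int.add_mul_emod_self_left, Int.emod_eq_of_lt h0 h1]

lemma D_cases {n : ℕ} {T : Finset (ℕ × ℕ)} (hT : IsTriangulation n T) {i j c : ℤ}
    (hij : i < j) (hji : j < i + n) (h : D n T i j) (h0 : 0 ≤ i - n * c) (h1 : i - n * c < n) :
    ∃ a b : ℕ, (a, b) ∈ T ∧ IsDiagonal n (a, b) ∧
      ((i = a + n * c ∧ j = b + n * c) ∨ (j = a + n + n * c ∧ i = b + n * c)) := by
  obtain ⟨a, b, ha, hb, hab⟩ := h
  rw [emod_eq h0 h1] at ha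
  rcases lt_or_ge (j - n * c) n with hj | hj
  · rw [emod_eq (by omega) hj] at hb
    rcases hab with hab | hab
    · exact ⟨a, b, hab, hT.1 _ hab, Or.inl ⟨by omega, by omega⟩⟩
    · have := hT.1 _ hab
      unfold IsDiagonal at this
      simp only at this
      omega
  · have hc : (n : ℤ) * (c + 1) = n * c + n := by ring
    rw [emod_eq (c := c + 1) (by omega) (by omega)] at hb
    rcases hab with hab | hab
    · have := hT.1 _ hab
      unfold IsDiagonal at this
      simp only at this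
      omega
    · exact ⟨b, a, hab, hT.1 _ hab, Or.inr ⟨by omega, by omega⟩⟩

/-- sides are not in `D` -/
lemma D_bound {n : ℕ} (hn : 3 ≤ n) {T : Finset (ℕ × ℕ)} (hT : IsTriangulation n T) {i j : ℤ}
    (hij : i < j) (hji : j < i + n) (h : D n T i j) : i + 2 ≤ j ∧ j + 2 ≤ i + n := by
  obtain ⟨c, h0, h1⟩ := exists_base hn i
  obtain ⟨a, b, -, hd, hc⟩ := D_cases hT hij hji h h0 h1
  unfold IsDiagonal at hd
  simp only at hd
  omega

lemma D_noncross {n : ℕ} (hn : 3 ≤ n) {T : Finset (ℕ × ℕ)} (hT : IsTriangulation n T)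
    {i k j l : ℤ} (h1 : i < k) (h2 : k < j) (h3 : j < l) (h4 : l < i + n) (hij : D n T i j)
    (hkl : D n T k l) : False := by
  obtain ⟨c, hc0, hc1⟩ := exists_base hn i
  obtain ⟨a, b, habT, hab, hcase⟩ := D_cases hT (by omega) (by omega) hij hc0 hc1
  rcases lt_or_ge (k - n * c) n with hk | hk
  · obtain ⟨a', b', habT', hab', hcase'⟩ := D_cases hT (c := c) (by omega) (by omega) hkl
      (by omega) hk
    refine hT.2.1 _ habT _ habT' ?_
    unfold IsDiagonal at hab hab'
    unfold Crossing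
    simp only at hab hab' ⊢
    omega
  · have hc : (n : ℤ) * (c + 1) = n * c + n := by ring
    obtain ⟨a', b', habT', hab', hcase'⟩ := D_cases hT (c := c + 1) (by omega) (by omega) hkl
      (by omega) (by omega)
    refine hT.2.1 _ habT _ habT' ?_
    unfold IsDiagonal at hab hab'
    unfold Crossing
    simp only at hab hab' ⊢
    omega

lemma D_of_mem {n : ℕ} {T : Finset (ℕ × ℕ)} (hT : IsTriangulation n T) {a b : ℕ}
    (h : (a, b) ∈ T) {i j : ℤ} {c d : ℤ} (hi : i = a + n * c) (hj : j = b + n * d) :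
    D n T i j := by
  have hd := hT.1 _ h
  unfold IsDiagonal at hd
  simp only at hd
  refine ⟨a, b, ?_, ?_, Or.inl h⟩
  · rw [emod_eq (c := c) (by omega) (by omega)]; omega
  · rw [emod_eq (c := d) (by omega) (by omega)]; omega

lemma D_max {n : ℕ} (hn : 3 ≤ n) {T : Finset (ℕ × ℕ)} (hT : IsTriangulation n T)
    {i j : ℤ} (h1 : i + 2 ≤ j) (h2 : j + 2 ≤ i + n) (hij : ¬ D n T i j) :
    ∃ k l : ℤ, i < k ∧ k < j ∧ j < l ∧ l < i + n ∧ D n T k l := by
  obtain ⟨c, hc0, hc1⟩ := exists_base hn i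
  obtain ⟨a, ha⟩ := Int.eq_ofNat_of_zero_le hc0
  have hc : (n : ℤ) * (c + 1) = n * c + n := by ring
  rcases lt_or_ge (j - n * c) n with hj | hj
  · obtain ⟨b, hb⟩ := Int.eq_ofNat_of_zero_le (show 0 ≤ j - n * c by omega)
    have hd : IsDiagonal n (a, b) := by
      unfold IsDiagonal
      simp only
      omega
    have hdT : (a, b) ∉ T := fun h => hij (D_of_mem hT h (c := c) (d := c) (by omega) (by omega))
    obtain ⟨⟨e, f⟩, hef, hcr⟩ := exists_crossing hn hT hd hdT
    have hdef := hT.1 _ hef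
    unfold Crossing at hcr
    unfold IsDiagonal at hdef
    simp only at hcr hdef
    rcases hcr with hcr | hcr
    · exact ⟨e + n * c, f + n * c, by omega, by omega, by omega, by omega,
        D_of_mem hT hef rfl rfl⟩
    · exact ⟨f + n * c, e + n * (c + 1), by omega, by omega, by omega, by omega,
        D_symm (D_of_mem hT hef rfl rfl)⟩
  · obtain ⟨b, hb⟩ := Int.eq_ofNat_of_zero_le (show 0 ≤ j - n * (c + 1) by omega)
    have hd : IsDiagonal n (b, a) := by
      unfold IsDiagonal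
      simp only
      omega
    have hdT : (b, a) ∉ T := fun h =>
      hij (D_symm (D_of_mem hT h (c := c + 1) (d := c) (by omega) (by omega)))
    obtain ⟨⟨e, f⟩, hef, hcr⟩ := exists_crossing hn hT hd hdT
    have hdef := hT.1 _ hef
    unfold Crossing at hcr
    unfold IsDiagonal at hdef
    simp only at hcr hdef
    rcases hcr with hcr | hcr
    · exact ⟨f + n * c, e + n * (c + 1), by omega, by omega, by omega, by omega,
        D_symm (D_of_mem hT hef rfl rfl)⟩
    · exact ⟨e + n * (c + 1), f + n * (c + 1), by omega, by omega, by omega, by omega,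
        D_of_mem hT hef rfl rfl⟩

/-- Ear lemma: below every diagonal there is an ear. -/
lemma exists_ear {n : ℕ} (hn : 3 ≤ n) {T : Finset (ℕ × ℕ)} (hT : IsTriangulation n T) (m : ℕ) :
    ∀ u v : ℤ, v - u ≤ m → u < v → v < u + n → D n T u v →
      ∃ w, u < w ∧ w < v ∧ D n T (w - 1) (w + 1) := by
  induction m with
  | zero => intro u v h1 h2; omega
  | succ m ih =>
    intro u v h1 h2 h3 h4
    have hb := D_bound hn hT h2 h3 h4
    by_cases h5 : D n T u (u + 2)
    · refine ⟨u + 1, by omega, by omega, ?_⟩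
      have e1 : u + 1 - 1 = u := by ring
      have e2 : u + 1 + 1 = u + 2 := by ring
      rw [e1, e2]
      exact h5
    · have h6 : v ≠ u + 2 := by rintro rfl; exact h5 h4
      obtain ⟨k, l, hk1, hk2, hl1, hl2, hkl⟩ := D_max hn hT (i := u) (j := u + 2) (by omega)
        (by omega) h5
      have hk : k = u + 1 := by omega
      subst hk
      have hlv : l ≤ v := by
        by_contra hcon
        push Not at hcon
        exact D_noncross hn hT (i := u) (k := u + 1) (j := v) (l := l) (by omega) (by omega)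
          hcon hl2 h4 hkl
      obtain ⟨w, hw1, hw2, hw3⟩ := ih (u + 1) l (by omega) (by omega) (by omega) hkl
      exact ⟨w, by omega, by omega, hw3⟩

lemma exists_ear' {n : ℕ} (hn : 3 ≤ n) {T : Finset (ℕ × ℕ)} (hT : IsTriangulation n T) {u v : ℤ}
    (h1 : u < v) (h2 : v < u + n) (h : D n T u v) :
    ∃ w, u < w ∧ w < v ∧ D n T (w - 1) (w + 1) :=
  exists_ear hn hT (v - u).toNat u v (by omega) h1 h2 h

/-- The triangle at the side `{y, y + 1}`. -/
lemma exists_apex {n : ℕ} (hn : 4 ≤ n) {T : Finset (ℕ × ℕ)} (hT : IsTriangulation n T) (y : ℤ) :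
    ∃ w, y + 2 ≤ w ∧ w + 1 ≤ y + n ∧ (w + 1 = y + n ∨ D n T y w) ∧
      (w = y + 2 ∨ D n T (y + 1) w) := by
  classical
  -- least `w = y + 2 + t` with `D y w` or `w = y + n - 1`
  have hex : ∃ t : ℕ, (y + 2 + t) + 1 = y + n ∨ D n T y (y + 2 + t) :=
    ⟨n - 3, Or.inl (by omega)⟩
  let P : ℕ → Prop := fun t => (y + 2 + t) + 1 = y + n ∨ D n T y (y + 2 + t)
  have hP : ∃ t, P t := hex
  have hspec := Nat.find_spec hP
  have hmin : ∀ t < Nat.find hP, ¬ P t := fun t ht => Nat.find_min hP ht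
  set t := Nat.find hP with ht
  have htn : t ≤ n - 3 := by
    by_contra hcon
    push Not at hcon
    exact hmin (n - 3) hcon (Or.inl (by omega))
  refine ⟨y + 2 + t, by omega, by omega, hspec, ?_⟩
  by_contra hcon
  push Not at hcon
  obtain ⟨h1, h2⟩ := hcon
  obtain ⟨k, l, hk1, hk2, hl1, hl2, hkl⟩ := D_max (by omega) hT (i := y + 1)
    (j := y + 2 + t) (by omega) (by omega) h2
  by_cases hl : l = y + n
  · refine hmin (k - y - 2).toNat (by omega) (Or.inr ?_)
    have h3 := D_symm (D_sub_right hkl)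
    have e1 : l - n = y := by omega
    have e2 : (y + 2 + ((k - y - 2).toNat : ℤ)) = k := by omega
    rw [e1] at h3
    rw [e2]
    exact h3
  · rcases hspec with h3 | h3
    · omega
    · exact D_noncross (by omega) hT (i := y) (k := k) (j := y + 2 + t) (l := l) (by omega)
        hk2 hl1 (by omega) h3 hkl

/-- If there is no ear in `[q + 1, p + n - 1]`, then the triangle at a side inside this arc has its
third vertex strictly inside `(p, q)`. -/
lemma side_apex {n : ℕ} (hn : 4 ≤ n) {T : Finset (ℕ × ℕ)} (hT : IsTriangulation n T) {p q : ℤ}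
    (hpq : p < q) (hno : ∀ w, q + 1 ≤ w → w + 1 ≤ p + n → ¬ D n T (w - 1) (w + 1)) {y : ℤ}
    (hy1 : q + 1 ≤ y) (hy2 : y + 2 ≤ p + n) :
    ∃ x, p < x ∧ x < q ∧ D n T x y ∧ D n T x (y + 1) := by
  obtain ⟨w, hw1, hw2, hw3, hw4⟩ := exists_apex hn hT y
  rcases lt_or_ge (p + n) w with h1 | h1
  · rcases lt_or_ge w (q + n) with h2 | h2
    · refine ⟨w - n, by omega, by omega, D_symm (D_sub_right ?_), D_symm (D_sub_right ?_)⟩
      · rcases hw3 with h | h
        · omega
        · exact h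
      · rcases hw4 with h | h
        · omega
        · exact h
    · have h3 : D n T (y + 1) w := by
        rcases hw4 with h | h
        · omega
        · exact h
      obtain ⟨v, hv1, hv2, hv3⟩ := exists_ear' (by omega) hT (u := w - n) (v := y + 1) (by omega)
        (by omega) (D_symm (D_sub_right h3))
      exact (hno v (by omega) (by omega) hv3).elim
  · have h3 : D n T y w := by
      rcases hw3 with h | h
      · omega
      · exact h
    obtain ⟨v, hv1, hv2, hv3⟩ := exists_ear' (by omega) hT (u := y) (v := w) (by omega)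
        (by omega) h3
    exact (hno v (by omega) (by omega) hv3).elim

/-- Key lemma: two triangulations whose ears are separated share a diagonal. -/
lemma common_diagonal {n : ℕ} (hn : 4 ≤ n) {T₁ T₂ : Finset (ℕ × ℕ)} (hT₁ : IsTriangulation n T₁)
    (hT₂ : IsTriangulation n T₂) {p q : ℤ} (hpq : p < q) (hqp : q + 2 < p + n)
    (h1 : ∀ w, q + 1 ≤ w → w + 1 ≤ p + n → ¬ D n T₁ (w - 1) (w + 1))
    (h2 : ∀ w, p ≤ w → w ≤ q → ¬ D n T₂ (w - 1) (w + 1)) :
    ∃ i j, D n T₁ i j ∧ D n T₂ i j := by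
  by_contra hcon
  push Not at hcon
  -- facts on `T₂`
  have hF2 : ∀ x, p ≤ x → x ≤ q → ∃ Y, q + 1 < Y ∧ Y + 1 < p + n ∧ D n T₂ x Y := by
    have h2' : ∀ w, (p + n - 1) + 1 ≤ w → w + 1 ≤ (q + 1) + n → ¬ D n T₂ (w - 1) (w + 1) := by
      intro w hw1 hw2 hw
      refine h2 (w - n) (by omega) (by omega) ?_
      have h3 := D_symm (D_sub_right (D_symm (D_sub_right hw)))
      have e1 : w - n - 1 = w - 1 - n := by ring
      have e2 : w - n + 1 = w + 1 - n := by ring
      rw [e1, e2]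
      exact h3
    intro x hx1 hx2
    rcases lt_or_eq_of_le hx2 with hx3 | hx3
    · obtain ⟨Y, hY1, hY2, hY3, -⟩ := side_apex hn hT₂ (p := q + 1) (q := p + n - 1) (by omega)
        h2' (y := x + n) (by omega) (by omega)
      have h3 := D_sub_right hY3
      have e1 : x + n - n = x := by ring
      rw [e1] at h3
      exact ⟨Y, hY1, by omega, D_symm h3⟩
    · obtain ⟨Y, hY1, hY2, -, hY3⟩ := side_apex hn hT₂ (p := q + 1) (q := p + n - 1) (by omega)
        h2' (y := x + n - 1) (by omega) (by omega)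
      have h3 := D_sub_right hY3
      have e1 : x + n - 1 + 1 - n = x := by ring
      rw [e1] at h3
      exact ⟨Y, hY1, by omega, D_symm h3⟩
  have hF3 : ∀ x, p ≤ x → x ≤ q → ∀ Y, q + 1 ≤ Y → Y + 1 ≤ p + n → D n T₂ x Y →
      q + 1 < Y ∧ Y + 1 < p + n := by
    intro x hx1 hx2 Y hY1 hY2 hD
    constructor
    · by_contra hc
      push Not at hc
      obtain ⟨v, hv1, hv2, hv3⟩ := exists_ear' (by omega) hT₂ (u := x) (v := Y) (by omega)
        (by omega) hD
      exact h2 v (by omega) (by omega) hv3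
    · by_contra hc
      push Not at hc
      obtain ⟨v, hv1, hv2, hv3⟩ := exists_ear' (by omega) hT₂ (u := Y - n) (v := x) (by omega)
        (by omega) (D_symm (D_sub_right hD))
      exact h2 v (by omega) (by omega) hv3
  -- downward induction
  have hind : ∀ m : ℕ, ∀ y, y = p + n - 1 - m → q + 1 ≤ y →
      ∀ x, p ≤ x → x ≤ q → D n T₁ x y →
      ∀ y', q + 1 ≤ y' → y' + 1 ≤ p + n → D n T₂ x y' → y' < y := by
    intro m
    induction m with
    | zero =>
      intro y hy hy1 x hx1 hx2 _ y' hy1' hy2' hD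
      have := hF3 x hx1 hx2 y' hy1' hy2' hD
      push_cast at hy
      omega
    | succ m ih =>
      intro y hy hy1 x hx1 hx2 hxy y' hy1' hy2' hD
      push_cast at hy
      have ih' := ih (y + 1) (by omega) (by omega)
      obtain ⟨x0, hx01, hx02, hx03, hx04⟩ := side_apex hn hT₁ hpq h1 (y := y) hy1 (by omega)
      have hlt : ∀ Y, q + 1 ≤ Y → Y + 1 ≤ p + n → D n T₂ x0 Y → Y < y := by
        intro Y hY1 hY2 hY
        have h3 := ih' x0 hx01.le hx02.le hx04 Y hY1 hY2 hY
        have h4 : Y ≠ y := by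
          rintro rfl
          exact hcon x0 Y hx03 hY
        omega
      rcases lt_trichotomy x x0 with h | h | h
      · exact (D_noncross (by omega) hT₁ (i := x) (k := x0) (j := y) (l := y + 1) h (by omega)
          (by omega) (by omega) hxy hx04).elim
      · subst h
        exact hlt y' hy1' hy2' hD
      · by_contra hc
        push Not at hc
        obtain ⟨Y, hY1, hY2, hY3⟩ := hF2 x0 hx01.le hx02.le
        have h5 := hlt Y hY1.le (by omega) hY3
        exact D_noncross (by omega) hT₂ (i := x0) (k := x) (j := Y) (l := y') h (by omega)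
          (by omega) (by omega) hY3 hD
  obtain ⟨x0, hx01, hx02, hx03, -⟩ := side_apex hn hT₁ hpq h1 (y := q + 1) le_rfl (by omega)
  obtain ⟨Y, hY1, hY2, hY3⟩ := hF2 x0 hx01.le hx02.le
  have := hind (p + n - 1 - (q + 1)).toNat (q + 1) (by omega) le_rfl x0 hx01.le hx02.le hx03 Y
    hY1.le (by omega) hY3
  omega

/-- The ears of a set of diagonals. -/
noncomputable def ears (n : ℕ) (T : Finset (ℕ × ℕ)) : Finset ℕ := by
  classical exact (range n).filter (fun w : ℕ => D n T ((w : ℤ) - 1) ((w : ℤ) + 1))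

lemma mem_ears {n : ℕ} {T : Finset (ℕ × ℕ)} {w : ℕ} :
    w ∈ ears n T ↔ w < n ∧ D n T ((w : ℤ) - 1) ((w : ℤ) + 1) := by
  classical
  unfold ears
  rw [mem_filter, mem_range]

lemma not_disjoint_of_common {n : ℕ} {T₁ T₂ : Finset (ℕ × ℕ)} (hT₁ : IsTriangulation n T₁)
    (hT₂ : IsTriangulation n T₂) {i j : ℤ} (h1 : D n T₁ i j) (h2 : D n T₂ i j) :
    ¬ Disjoint T₁ T₂ := by
  obtain ⟨a, b, ha, hb, h1⟩ := h1
  obtain ⟨a', b', ha', hb', h2⟩ := h2
  have haa : a' = a := by omega
  have hbb : b' = b := by omega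
  subst haa hbb
  rw [Finset.not_disjoint_iff]
  rcases h1 with h1 | h1 <;> rcases h2 with h2 | h2
  · exact ⟨_, h1, h2⟩
  · have h3 := (hT₁.1 _ h1).1
    have h4 := (hT₂.1 _ h2).1
    simp only at h3 h4
    omega
  · have h3 := (hT₁.1 _ h1).1
    have h4 := (hT₂.1 _ h2).1
    simp only at h3 h4
    omega
  · exact ⟨_, h1, h2⟩

lemma ears_disjoint {n : ℕ} {T₁ T₂ : Finset (ℕ × ℕ)} (hT₁ : IsTriangulation n T₁)
    (hT₂ : IsTriangulation n T₂) (h : Disjoint T₁ T₂) : Disjoint (ears n T₁) (ears n T₂) := by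
  rw [Finset.disjoint_left]
  intro w h1 h2
  rw [mem_ears] at h1 h2
  exact not_disjoint_of_common hT₁ hT₂ h1.2 h2.2 h

lemma ears_card {n : ℕ} (hn : 4 ≤ n) {T : Finset (ℕ × ℕ)} (hT : IsTriangulation n T) :
    2 ≤ (ears n T).card := by
  have hpos : 0 < T.card := by rw [hT.2.2]; omega
  obtain ⟨⟨a, b⟩, hab⟩ := card_pos.1 hpos
  have hd := hT.1 _ hab
  unfold IsDiagonal at hd
  simp only at hd
  have hD : D n T (a : ℤ) (b : ℤ) := D_of_mem hT hab (c := 0) (d := 0) (by simp) (by simp)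
  obtain ⟨w, hw1, hw2, hw3⟩ := exists_ear' (by omega) hT (u := a) (v := b) (by omega) (by omega) hD
  obtain ⟨z, hz1, hz2, hz3⟩ := exists_ear' (by omega) hT (u := b) (v := a + n) (by omega)
    (by omega) (D_add_right (D_symm hD))
  obtain ⟨w', rfl⟩ := Int.eq_ofNat_of_zero_le (show 0 ≤ w by omega)
  have hw' : w' ∈ ears n T := mem_ears.2 ⟨by omega, hw3⟩
  rcases lt_or_ge z n with hz | hz
  · obtain ⟨z', rfl⟩ := Int.eq_ofNat_of_zero_le (show 0 ≤ z by omega)
    have hz' : z' ∈ ears n T := mem_ears.2 ⟨by omega, hz3⟩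
    exact Finset.one_lt_card.2 ⟨w', hw', z', hz', by omega⟩
  · obtain ⟨z', hz'⟩ := Int.eq_ofNat_of_zero_le (show 0 ≤ z - n by omega)
    have h3 : D n T ((z' : ℤ) - 1) ((z' : ℤ) + 1) := by
      have h3 := D_symm (D_sub_right (D_symm (D_sub_right hz3)))
      have e1 : (z' : ℤ) - 1 = z - 1 - n := by omega
      have e2 : (z' : ℤ) + 1 = z + 1 - n := by omega
      rw [e1, e2]
      exact h3
    have hz'' : z' ∈ ears n T := mem_ears.2 ⟨by omega, h3⟩
    exact Finset.one_lt_card.2 ⟨w', hw', z', hz'', by omega⟩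

/-- The ear sets of two disjoint triangulations are not separated. -/
lemma ears_not_separated {n : ℕ} (hn : 4 ≤ n) {T₁ T₂ : Finset (ℕ × ℕ)}
    (hT₁ : IsTriangulation n T₁) (hT₂ : IsTriangulation n T₂) (h : Disjoint T₁ T₂) {p q : ℕ}
    (hq : q < n) (hS : ears n T₁ ⊆ Icc p q) : ∃ v ∈ ears n T₂, v ∈ Icc p q := by
  by_contra hcon
  push Not at hcon
  have h1 := ears_card hn hT₁
  have h2 := ears_card hn hT₂
  have h3 := card_le_card hS
  rw [Nat.card_Icc] at h3
  have h4 : ears n T₂ ⊆ (range n) \ (Icc p q) := by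
    intro v hv
    rw [mem_sdiff, mem_range]
    exact ⟨(mem_ears.1 hv).1, hcon v hv⟩
  have h5 := card_le_card h4
  have h6 : Icc p q ⊆ range n := by
    intro x hx
    rw [mem_Icc] at hx
    rw [mem_range]
    omega
  rw [card_sdiff_of_subset h6, card_range, Nat.card_Icc] at h5
  have ha : ∀ w : ℤ, (q : ℤ) + 1 ≤ w → w + 1 ≤ p + n → ¬ D n T₁ (w - 1) (w + 1) := by
    intro w hw1 hw2 hw3
    rcases lt_or_ge w n with hw | hw
    · obtain ⟨w', rfl⟩ := Int.eq_ofNat_of_zero_le (show 0 ≤ w by omega)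
      have := hS (mem_ears.2 ⟨by omega, hw3⟩)
      rw [mem_Icc] at this
      omega
    · obtain ⟨w', hw'⟩ := Int.eq_ofNat_of_zero_le (show 0 ≤ w - n by omega)
      have h3 : D n T₁ ((w' : ℤ) - 1) ((w' : ℤ) + 1) := by
        have h3 := D_symm (D_sub_right (D_symm (D_sub_right hw3)))
        have e1 : (w' : ℤ) - 1 = w - 1 - n := by omega
        have e2 : (w' : ℤ) + 1 = w + 1 - n := by omega
        rw [e1, e2]
        exact h3
      have := hS (mem_ears.2 ⟨by omega, h3⟩)
      rw [mem_Icc] at this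
      omega
  have hb : ∀ w : ℤ, (p : ℤ) ≤ w → w ≤ q → ¬ D n T₂ (w - 1) (w + 1) := by
    intro w hw1 hw2 hw3
    obtain ⟨w', rfl⟩ := Int.eq_ofNat_of_zero_le (show 0 ≤ w by omega)
    exact hcon w' (mem_ears.2 ⟨by omega, hw3⟩) (mem_Icc.2 ⟨by omega, by omega⟩)
  obtain ⟨i, j, hi, hj⟩ := common_diagonal hn hT₁ hT₂ (p := p) (q := q) (by omega) (by omega) ha hb
  exact not_disjoint_of_common hT₁ hT₂ hi hj h

/-- The ear sets of the triangulations that receive colour `1` (among those whose ears all lie in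
`{0, …, 3 r - 2}`). -/
def C2 (r : ℕ) (S : Finset ℕ) : Prop :=
  (S ⊆ range (2 * r) ∧ S ≠ {0, r}) ∨
  (1 ∈ S ∧ (S ∩ Ico (2 * r) (3 * r - 1)).card = 1 ∧ ∀ v ∈ S, v = 1 ∨ r < v)

lemma pig {ι : Type} (F : Finset ι) (S : ι → Finset ℕ) (P : Finset ℕ)
    (hd : ∀ i ∈ F, ∀ j ∈ F, i ≠ j → Disjoint (S i) (S j))
    (hne : ∀ i ∈ F, ∃ v ∈ S i, v ∈ P) : F.card ≤ P.card ∧
      (F.card = P.card → (∀ i ∈ F, (S i ∩ P).card = 1) ∧ ∀ v ∈ P, ∃ i ∈ F, v ∈ S i) := by
  classical
  have h1 : (F.biUnion (fun i => S i ∩ P)).card = ∑ i ∈ F, (S i ∩ P).card := by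
    apply card_biUnion
    intro i hi j hj hij
    exact disjoint_of_subset_left inter_subset_left
      (disjoint_of_subset_right inter_subset_left (hd i hi j hj hij))
  have h2 : F.biUnion (fun i => S i ∩ P) ⊆ P := by
    rw [biUnion_subset]
    intro i _
    exact inter_subset_right
  have h3 : ∀ i ∈ F, 1 ≤ (S i ∩ P).card := by
    intro i hi
    obtain ⟨v, hv1, hv2⟩ := hne i hi
    exact card_pos.2 ⟨v, mem_inter.2 ⟨hv1, hv2⟩⟩
  have h4 : ∑ i ∈ F, 1 ≤ ∑ i ∈ F, (S i ∩ P).card := sum_le_sum h3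
  have h5 : F.card = ∑ i ∈ F, 1 := by simp
  have h6 := card_le_card h2
  refine ⟨by omega, ?_⟩
  intro heq
  constructor
  · intro i hi
    by_contra hcon
    have h7 : ∑ i ∈ F, 1 < ∑ i ∈ F, (S i ∩ P).card :=
      sum_lt_sum h3 ⟨i, hi, by have := h3 i hi; omega⟩
    omega
  · intro v hv
    have h7 : F.biUnion (fun i => S i ∩ P) = P := eq_of_subset_of_card_le h2 (by omega)
    rw [← h7, mem_biUnion] at hv
    obtain ⟨i, hi, hv⟩ := hv
    exact ⟨i, hi, (mem_inter.1 hv).1⟩

/-- if the union of `F.card` disjoint sets of size at least two has at most `2 |F|` elements, then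
all have size two and they cover. -/
lemma pig2 {ι : Type} (F : Finset ι) (S : ι → Finset ℕ) (P : Finset ℕ)
    (hd : ∀ i ∈ F, ∀ j ∈ F, i ≠ j → Disjoint (S i) (S j))
    (hc : ∀ i ∈ F, 2 ≤ (S i).card) (hP : ∀ i ∈ F, S i ⊆ P) : 2 * F.card ≤ P.card ∧
      (2 * F.card = P.card → (∀ i ∈ F, (S i).card = 2) ∧ ∀ v ∈ P, ∃ i ∈ F, v ∈ S i) := by
  classical
  have h1 : (F.biUnion (fun i => S i)).card = ∑ i ∈ F, (S i).card := by
    apply card_biUnion
    intro i hi j hj hij
    exact hd i hi j hj hij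
  have h2 : F.biUnion (fun i => S i) ⊆ P := by
    rw [biUnion_subset]
    exact hP
  have h4 : ∑ i ∈ F, 2 ≤ ∑ i ∈ F, (S i).card := sum_le_sum hc
  have h5 : 2 * F.card = ∑ i ∈ F, 2 := by simp [mul_comm]
  have h6 := card_le_card h2
  refine ⟨by omega, ?_⟩
  intro heq
  constructor
  · intro i hi
    by_contra hcon
    have h7 : ∑ i ∈ F, 2 < ∑ i ∈ F, (S i).card :=
      sum_lt_sum hc ⟨i, hi, by have := hc i hi; omega⟩
    omega
  · intro v hv
    have h7 : F.biUnion (fun i => S i) = P := eq_of_subset_of_card_le h2 (by omega)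
    rw [← h7, mem_biUnion] at hv
    exact hv

lemma class0 {ι : Type} {r : ℕ} (hr : 3 ≤ r) (F : Finset ι) (hF : F.card = r)
    (S : ι → Finset ℕ) (hsub : ∀ i ∈ F, S i ⊆ range (3 * r - 1))
    (hd : ∀ i ∈ F, ∀ j ∈ F, i ≠ j → Disjoint (S i) (S j))
    (hns : ∀ i ∈ F, ∀ j ∈ F, i ≠ j → ∀ p q, q < 3 * r - 1 → S i ⊆ Icc p q →
      ∃ v ∈ S j, v ∈ Icc p q)
    (hall : ∀ i ∈ F, ¬ C2 r (S i)) : False := by
  classical
  have hP : ∀ i ∈ F, ¬ S i ⊆ range (2 * r) → ∃ v ∈ S i, v ∈ Ico (2 * r) (3 * r - 1) := by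
    intro i hi h
    rw [not_subset] at h
    obtain ⟨v, hv1, hv2⟩ := h
    have h3 := hsub i hi hv1
    rw [mem_range] at h3 hv2
    exact ⟨v, hv1, mem_Ico.2 ⟨by omega, h3⟩⟩
  -- some set is contained in `range (2 r)`
  obtain ⟨i0, hi0, hi0s⟩ : ∃ i ∈ F, S i ⊆ range (2 * r) := by
    by_contra hcon
    push Not at hcon
    have h := (pig F S (Ico (2 * r) (3 * r - 1)) hd (fun i hi => hP i hi (hcon i hi))).1
    rw [Nat.card_Ico] at h
    omega
  have hS0 : S i0 = {0, r} := by
    by_contra hcon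
    exact hall i0 hi0 (Or.inl ⟨hi0s, hcon⟩)
  have hdis : ∀ i ∈ F.erase i0, 0 ∉ S i ∧ r ∉ S i := by
    intro i hi
    rw [mem_erase] at hi
    have h := hd i hi.2 i0 hi0 hi.1
    rw [hS0, disjoint_right] at h
    exact ⟨h (by simp), h (by simp)⟩
  have hF' : (F.erase i0).card = r - 1 := by rw [card_erase_of_mem hi0, hF]
  have hd' : ∀ i ∈ F.erase i0, ∀ j ∈ F.erase i0, i ≠ j → Disjoint (S i) (S j) :=
    fun i hi j hj => hd i (mem_of_mem_erase hi) j (mem_of_mem_erase hj)
  have h1 := (pig (F.erase i0) S (Ico (2 * r) (3 * r - 1)) hd' (by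
    intro i hi
    refine hP i (mem_of_mem_erase hi) ?_
    intro h
    have h3 : S i = {0, r} := by
      by_contra hcon
      exact hall i (mem_of_mem_erase hi) (Or.inl ⟨h, hcon⟩)
    have h4 := (hdis i hi).1
    rw [h3] at h4
    simp at h4)).2 (by rw [hF', Nat.card_Ico]; omega)
  have h2 := (pig (F.erase i0) S (Ico 1 r) hd' (by
    intro i hi
    obtain ⟨v, hv1, hv2⟩ := hns i0 hi0 i (mem_of_mem_erase hi) (ne_of_mem_erase hi).symm 0 r
      (by omega) (by
        rw [hS0]
        intro x hx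
        rw [mem_insert, mem_singleton] at hx
        rw [mem_Icc]
        omega)
    refine ⟨v, hv1, ?_⟩
    rw [mem_Icc] at hv2
    have h3 := hdis i hi
    have h4 : v ≠ 0 := by rintro rfl; exact h3.1 hv1
    have h5 : v ≠ r := by rintro rfl; exact h3.2 hv1
    rw [mem_Ico]
    omega)).2 (by rw [hF', Nat.card_Ico])
  obtain ⟨i1, hi1, hi1s⟩ := h2.2 1 (by rw [mem_Ico]; omega)
  refine hall i1 (mem_of_mem_erase hi1) (Or.inr ⟨hi1s, h1.1 i1 hi1, ?_⟩)
  intro v hv
  by_contra hcon
  push Not at hcon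
  have h3 := hdis i1 hi1
  have h4 : v ≠ 0 := by rintro rfl; exact h3.1 hv
  have h5 : v ≠ r := by rintro rfl; exact h3.2 hv
  have h6 := h2.1 i1 hi1
  have h7 : 1 < (S i1 ∩ Ico 1 r).card := by
    rw [one_lt_card]
    exact ⟨1, mem_inter.2 ⟨hi1s, by rw [mem_Ico]; omega⟩, v,
      mem_inter.2 ⟨hv, by rw [mem_Ico]; omega⟩, fun h => hcon.1 h.symm⟩
  omega

lemma pair_of_card_two {S : Finset ℕ} (h : S.card = 2) {a : ℕ} (ha : a ∈ S) :
    ∃ b, b ≠ a ∧ S = {a, b} := by
  rw [card_eq_two] at h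
  obtain ⟨x, y, hxy, rfl⟩ := h
  rw [mem_insert, mem_singleton] at ha
  rcases ha with rfl | rfl
  · exact ⟨y, hxy.symm, rfl⟩
  · exact ⟨x, hxy, Finset.pair_comm _ _⟩

lemma class1 {ι : Type} {r : ℕ} (hr : 3 ≤ r) (F : Finset ι) (hF : F.card = r)
    (S : ι → Finset ℕ) (hsub : ∀ i ∈ F, S i ⊆ range (3 * r - 1))
    (hc : ∀ i ∈ F, 2 ≤ (S i).card)
    (hd : ∀ i ∈ F, ∀ j ∈ F, i ≠ j → Disjoint (S i) (S j))
    (hns : ∀ i ∈ F, ∀ j ∈ F, i ≠ j → ∀ p q, q < 3 * r - 1 → S i ⊆ Icc p q →
      ∃ v ∈ S j, v ∈ Icc p q)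
    (hall : ∀ i ∈ F, C2 r (S i)) : False := by
  classical
  by_cases hA : ∀ i ∈ F, S i ⊆ range (2 * r)
  · -- all sets inside `range (2 r)`
    have h1 := (pig2 F S (range (2 * r)) hd hc hA).2 (by rw [hF, card_range])
    obtain ⟨i0, hi0, h0⟩ := h1.2 0 (by rw [mem_range]; omega)
    obtain ⟨y, hy0, hS0⟩ := pair_of_card_two (h1.1 i0 hi0) h0
    have hy2 : y < 2 * r := by
      have := hA i0 hi0 (show y ∈ S i0 by rw [hS0]; simp)
      rwa [mem_range] at this
    have hyr : y ≠ r := by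
      rintro rfl
      rcases hall i0 hi0 with h | h
      · exact h.2 hS0
      · rcases h.2.2 0 h0 with h' | h' <;> omega
    have hF' : (F.erase i0).card = r - 1 := by rw [card_erase_of_mem hi0, hF]
    have hd' : ∀ i ∈ F.erase i0, ∀ j ∈ F.erase i0, i ≠ j → Disjoint (S i) (S j) :=
      fun i hi j hj => hd i (mem_of_mem_erase hi) j (mem_of_mem_erase hj)
    have hdis : ∀ i ∈ F.erase i0, ∀ v ∈ S i, v ≠ 0 ∧ v ≠ y ∧ v < 2 * r := by
      intro i hi v hv
      rw [mem_erase] at hi
      have h := hd i hi.2 i0 hi0 hi.1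
      rw [hS0, disjoint_left] at h
      have h3 := h hv
      rw [mem_insert, mem_singleton] at h3
      have h4 := hA i hi.2 hv
      rw [mem_range] at h4
      exact ⟨fun h => h3 (Or.inl h), fun h => h3 (Or.inr h), h4⟩
    have h2 := (pig (F.erase i0) S (Ico 1 y) hd' (by
      intro i hi
      obtain ⟨v, hv1, hv2⟩ := hns i0 hi0 i (mem_of_mem_erase hi) (ne_of_mem_erase hi).symm 0 y
        (by omega) (by
          rw [hS0]
          intro x hx
          rw [mem_insert, mem_singleton] at hx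
          rw [mem_Icc]
          omega)
      refine ⟨v, hv1, ?_⟩
      have := hdis i hi v hv1
      rw [mem_Icc] at hv2
      rw [mem_Ico]
      omega)).1
    have h3 := (pig (F.erase i0) S (Ico (y + 1) (2 * r)) hd' (by
      intro i hi
      by_contra hcon
      push Not at hcon
      obtain ⟨v, hv1, hv2⟩ := hns i (mem_of_mem_erase hi) i0 hi0 (ne_of_mem_erase hi) 1 (y - 1)
        (by omega) (by
          intro x hx
          have h5 := hdis i hi x hx
          have h6 := hcon x hx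
          rw [mem_Ico] at h6
          rw [mem_Icc]
          omega)
      rw [hS0, mem_insert, mem_singleton] at hv1
      rw [mem_Icc] at hv2
      omega)).1
    rw [hF', Nat.card_Ico] at h2 h3
    omega
  · push Not at hA
    obtain ⟨i1, hi1, hX⟩ := hA
    have hX1 : 1 ∈ S i1 ∧ (S i1 ∩ Ico (2 * r) (3 * r - 1)).card = 1 ∧
        ∀ v ∈ S i1, v = 1 ∨ r < v := by
      rcases hall i1 hi1 with h | h
      · exact (hX h.1).elim
      · exact h
    have hF' : (F.erase i1).card = r - 1 := by rw [card_erase_of_mem hi1, hF]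
    have hd' : ∀ i ∈ F.erase i1, ∀ j ∈ F.erase i1, i ≠ j → Disjoint (S i) (S j) :=
      fun i hi j hj => hd i (mem_of_mem_erase hi) j (mem_of_mem_erase hj)
    have hdis : ∀ i ∈ F.erase i1, ∀ v ∈ S i, v ∉ S i1 := by
      intro i hi v hv
      rw [mem_erase] at hi
      have h := hd i hi.2 i1 hi1 hi.1
      rw [disjoint_left] at h
      exact h hv
    have hL : ∀ i ∈ F.erase i1, S i ⊆ range (2 * r) ∧ S i ≠ {0, r} := by
      intro i hi
      rcases hall i (mem_of_mem_erase hi) with h | h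
      · exact h
      · exact (hdis i hi 1 h.1 hX1.1).elim
    have hM : ∀ i ∈ F.erase i1, S i ⊆ range (2 * r) \ S i1 := by
      intro i hi v hv
      exact mem_sdiff.2 ⟨(hL i hi).1 hv, hdis i hi v hv⟩
    have hp := pig2 (F.erase i1) S (range (2 * r) \ S i1) hd'
      (fun i hi => hc i (mem_of_mem_erase hi)) hM
    have hcard : (range (2 * r) \ S i1).card + (range (2 * r) ∩ S i1).card = 2 * r := by
      have := card_sdiff_add_card_inter (range (2 * r)) (S i1)
      rw [card_range] at this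
      exact this
    have h1mem : 1 ∈ range (2 * r) ∩ S i1 := mem_inter.2 ⟨by rw [mem_range]; omega, hX1.1⟩
    by_cases hB : (range (2 * r) ∩ S i1) = {1}
    · -- every other set contains 0
      have h0 : ∀ i ∈ F.erase i1, 0 ∈ S i := by
        intro i hi
        by_contra hcon
        obtain ⟨v, hv1, hv2⟩ := hns i (mem_of_mem_erase hi) i1 hi1 (ne_of_mem_erase hi) 2
          (2 * r - 1) (by omega) (by
            intro x hx
            have h5 := (hL i hi).1 hx
            have h6 : x ≠ 0 := by rintro rfl; exact hcon hx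
            have h7 : x ≠ 1 := by rintro rfl; exact hdis i hi 1 hx hX1.1
            rw [mem_range] at h5
            rw [mem_Icc]
            omega)
        rw [mem_Icc] at hv2
        have h8 : v ∈ range (2 * r) ∩ S i1 := mem_inter.2 ⟨by rw [mem_range]; omega, hv1⟩
        rw [hB, mem_singleton] at h8
        omega
      have h2 : 1 < (F.erase i1).card := by omega
      rw [one_lt_card] at h2
      obtain ⟨i, hi, j, hj, hij⟩ := h2
      exact (disjoint_left.1 (hd' i hi j hj hij)) (h0 i hi) (h0 j hj)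
    · -- `S i1` contains exactly one further element `y`
      have hcc : (range (2 * r) ∩ S i1).card = 2 := by
        have h2 : 1 ≤ (range (2 * r) ∩ S i1).card := card_pos.2 ⟨1, h1mem⟩
        have h3 : (range (2 * r) ∩ S i1).card ≠ 1 := by
          intro h
          rw [card_eq_one] at h
          obtain ⟨x, hx⟩ := h
          rw [hx, mem_singleton] at h1mem
          subst h1mem
          exact hB hx
        omega
      obtain ⟨y, hy1, hXr⟩ := pair_of_card_two hcc h1mem
      have hyX : y ∈ range (2 * r) ∩ S i1 := by rw [hXr]; simp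
      have hyr : r < y ∧ y < 2 * r := by
        rw [mem_inter, mem_range] at hyX
        have := hX1.2.2 y hyX.2
        omega
      have hp2 := hp.2 (by omega)
      obtain ⟨i2, hi2, h02⟩ := hp2.2 0 (by
        rw [mem_sdiff, mem_range]
        refine ⟨by omega, fun h => ?_⟩
        rcases hX1.2.2 0 h with h' | h' <;> omega)
      obtain ⟨z, hz0, hS2⟩ := pair_of_card_two (hp2.1 i2 hi2) h02
      have hzS : z ∈ S i2 := by rw [hS2]; simp
      have hzne : z ≠ 1 ∧ z ≠ y ∧ z < 2 * r := by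
        have h5 := hdis i2 hi2 z hzS
        have h6 := (hL i2 hi2).1 hzS
        rw [mem_range] at h6
        refine ⟨?_, ?_, h6⟩
        · rintro rfl; exact h5 hX1.1
        · rintro rfl; exact h5 (mem_inter.1 hyX).2
      have hzr : z ≠ r := by
        rintro rfl
        exact (hL i2 hi2).2 hS2
      have hF'' : ((F.erase i1).erase i2).card = r - 2 := by
        rw [card_erase_of_mem hi2, hF']; omega
      have hd'' : ∀ i ∈ (F.erase i1).erase i2, ∀ j ∈ (F.erase i1).erase i2, i ≠ j →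
          Disjoint (S i) (S j) :=
        fun i hi j hj => hd' i (mem_of_mem_erase hi) j (mem_of_mem_erase hj)
      have hmem : ∀ i ∈ (F.erase i1).erase i2, ∀ v ∈ S i,
          v ≠ 0 ∧ v ≠ 1 ∧ v ≠ y ∧ v ≠ z ∧ v < 2 * r := by
        intro i hi v hv
        have hi' := mem_of_mem_erase hi
        have h5 := hdis i hi' v hv
        have h6 := (hL i hi').1 hv
        rw [mem_range] at h6
        have h7 := disjoint_left.1 (hd' i hi' i2 hi2 (ne_of_mem_erase hi)) hv
        rw [hS2, mem_insert, mem_singleton] at h7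
        refine ⟨fun h => h7 (Or.inl h), ?_, ?_, fun h => h7 (Or.inr h), h6⟩
        · rintro rfl; exact h5 hX1.1
        · rintro rfl; exact h5 (mem_inter.1 hyX).2
      have hXmem : ∀ v ∈ S i1, v < 2 * r → v = 1 ∨ v = y := by
        intro v hv hv2
        have h5 : v ∈ range (2 * r) ∩ S i1 := mem_inter.2 ⟨by rw [mem_range]; omega, hv⟩
        rw [hXr, mem_insert, mem_singleton] at h5
        exact h5
      -- each further set meets `[y + 1, 2 r - 1]`
      have h3 := (pig ((F.erase i1).erase i2) S ((Ico (y + 1) (2 * r)).erase z) hd'' (by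
        intro i hi
        by_contra hcon
        push Not at hcon
        have hi' := mem_of_mem_erase hi
        obtain ⟨v, hv1, hv2⟩ := hns i (mem_of_mem_erase hi') i1 hi1 (ne_of_mem_erase hi') 2 (y - 1)
          (by omega) (by
            intro x hx
            have h5 := hmem i hi x hx
            have h6 := hcon x hx
            rw [mem_erase, mem_Ico] at h6
            rw [mem_Icc]
            omega)
        rw [mem_Icc] at hv2
        rcases hXmem v hv1 (by omega) with h | h <;> omega)).1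
      rw [hF''] at h3
      have hzy : z < y := by
        by_contra hcon
        have h4 : z ∈ Ico (y + 1) (2 * r) := by rw [mem_Ico]; omega
        rw [card_erase_of_mem h4, Nat.card_Ico] at h3
        omega
      have h4 : z ∉ Ico (y + 1) (2 * r) := by rw [mem_Ico]; omega
      rw [erase_eq_of_notMem h4, Nat.card_Ico] at h3
      -- each further set meets `[2, z - 1]`
      have h5 := (pig ((F.erase i1).erase i2) S (Ico 2 z) hd'' (by
        intro i hi
        have hi' := mem_of_mem_erase hi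
        obtain ⟨v, hv1, hv2⟩ := hns i2 (mem_of_mem_erase hi2) i (mem_of_mem_erase hi')
          (ne_of_mem_erase hi).symm 0 z (by omega) (by
            rw [hS2]
            intro x hx
            rw [mem_insert, mem_singleton] at hx
            rw [mem_Icc]
            omega)
        refine ⟨v, hv1, ?_⟩
        have := hmem i hi v hv1
        rw [mem_Icc] at hv2
        rw [mem_Ico]
        omega)).1
      rw [hF'', Nat.card_Ico] at h5
      omega

/-- The largest ear. -/
noncomputable def top (n : ℕ) (T : Finset (ℕ × ℕ)) : ℕ := (ears n T).sup id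

lemma top_mem {n : ℕ} (hn : 4 ≤ n) {T : Finset (ℕ × ℕ)} (hT : IsTriangulation n T) :
    top n T ∈ ears n T := by
  have h := ears_card hn hT
  have hne : (ears n T).Nonempty := card_pos.1 (by omega)
  obtain ⟨v, hv, hv2⟩ := exists_mem_eq_sup (ears n T) hne id
  unfold top
  rw [hv2]
  exact hv

lemma le_top {n : ℕ} {T : Finset (ℕ × ℕ)} {v : ℕ} (hv : v ∈ ears n T) : v ≤ top n T :=
  le_sup (f := id) hv

/-- The colour of a triangulation. -/
noncomputable def col (r n : ℕ) (T : Finset (ℕ × ℕ)) : ℕ := by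
  classical exact
    if 3 * r - 1 ≤ top n T then 2 + (top n T - (3 * r - 1)) / (r - 1)
    else if C2 r (ears n T) then 1 else 0

lemma col_of_le {r n : ℕ} {T : Finset (ℕ × ℕ)} (h : 3 * r - 1 ≤ top n T) :
    col r n T = 2 + (top n T - (3 * r - 1)) / (r - 1) := by
  unfold col
  rw [if_pos h]

lemma col_of_C2 {r n : ℕ} {T : Finset (ℕ × ℕ)} (h : ¬ 3 * r - 1 ≤ top n T)
    (h2 : C2 r (ears n T)) : col r n T = 1 := by
  unfold col
  rw [if_neg h, if_pos h2]

lemma col_of_not_C2 {r n : ℕ} {T : Finset (ℕ × ℕ)} (h : ¬ 3 * r - 1 ≤ top n T)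
    (h2 : ¬ C2 r (ears n T)) : col r n T = 0 := by
  unfold col
  rw [if_neg h, if_neg h2]

lemma col_lt {r n : ℕ} (hr : 3 ≤ r) (hn : 3 * r - 1 ≤ n) {T : Finset (ℕ × ℕ)}
    (hT : IsTriangulation n T) : col r n T < (n - 3) / (r - 1) := by
  have h1 := (mem_ears.1 (top_mem (by omega) hT)).1
  have h2 : 2 ≤ (n - 3) / (r - 1) := by
    rw [Nat.le_div_iff_mul_le (by omega)]
    omega
  unfold col
  split_ifs with h3 h4
  · have h5 : (n - 3) / (r - 1) = 3 + (n - 3 * r) / (r - 1) := by
      have e : n - 3 = (n - 3 * r) + 3 * (r - 1) := by omega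
      rw [e, Nat.add_mul_div_right _ _ (by omega)]
      ring
    have h6 : (top n T - (3 * r - 1)) / (r - 1) ≤ (n - 3 * r) / (r - 1) :=
      Nat.div_le_div_right (by omega)
    omega
  · omega
  · omega

lemma colorable {r n : ℕ} (hr : 3 ≤ r) (hn : 3 * r - 1 ≤ n) :
    Colorable r n ((n - 3) / (r - 1)) := by
  classical
  refine ⟨fun T => ⟨col r n T.1, col_lt hr hn T.2⟩, ?_⟩
  intro F hF
  by_contra hcon
  push Not at hcon
  have hcon' : ∀ S ∈ F, ∀ T ∈ F, col r n S.1 = col r n T.1 := by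
    intro S hS T hT
    have h := hcon S hS T hT
    exact Fin.mk.inj_iff.1 h
  have hd : ∀ S ∈ F, ∀ T ∈ F, S ≠ T → Disjoint (ears n S.1) (ears n T.1) :=
    fun S hS T hT hST => ears_disjoint S.2 T.2 (hF.2 S hS T hT hST)
  have hne : F.Nonempty := card_pos.1 (by rw [hF.1]; omega)
  obtain ⟨T0, hT0⟩ := hne
  by_cases h0 : 3 * r - 1 ≤ top n T0.1
  · -- colours at least two
    obtain ⟨q, hq⟩ : ∃ q, q = (top n T0.1 - (3 * r - 1)) / (r - 1) := ⟨_, rfl⟩
    have hc0 : col r n T0.1 = 2 + q := by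
      rw [hq]
      exact col_of_le h0
    have hall : ∀ S ∈ F, 3 * r - 1 ≤ top n S.1 ∧ (top n S.1 - (3 * r - 1)) / (r - 1) = q := by
      intro S hS
      have h := hcon' S hS T0 hT0
      rw [hc0] at h
      by_cases h1 : 3 * r - 1 ≤ top n S.1
      · rw [col_of_le h1] at h
        exact ⟨h1, by omega⟩
      · by_cases h2 : C2 r (ears n S.1)
        · rw [col_of_C2 h1 h2] at h
          omega
        · rw [col_of_not_C2 h1 h2] at h
          omega
    have h2 := (pig F (fun S : Tri n => ears n S.1)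
      (Ico (3 * r - 1 + q * (r - 1)) (3 * r - 1 + q * (r - 1) + (r - 1))) hd (by
        intro S hS
        refine ⟨top n S.1, top_mem (by omega) S.2, ?_⟩
        obtain ⟨h3, h4⟩ := hall S hS
        rw [Nat.div_eq_iff (by omega)] at h4
        rw [mem_Ico]
        omega)).1
    rw [Nat.card_Ico, hF.1] at h2
    omega
  · push Not at h0
    have hsmall : ∀ S ∈ F, top n S.1 < 3 * r - 1 := by
      intro S hS
      by_contra h1
      push Not at h1
      have h := hcon' S hS T0 hT0
      rw [col_of_le h1] at h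
      generalize (top n S.1 - (3 * r - 1)) / (r - 1) = z at h
      by_cases h2 : C2 r (ears n T0.1)
      · rw [col_of_C2 (by omega) h2] at h
        omega
      · rw [col_of_not_C2 (by omega) h2] at h
        omega
    have hsub : ∀ S ∈ F, ears n S.1 ⊆ range (3 * r - 1) := by
      intro S hS v hv
      rw [mem_range]
      exact lt_of_le_of_lt (le_top hv) (hsmall S hS)
    have hcard : ∀ S ∈ F, 2 ≤ (ears n S.1).card := fun S _ => ears_card (by omega) S.2
    have hns : ∀ S ∈ F, ∀ T ∈ F, S ≠ T → ∀ p q, q < 3 * r - 1 → ears n S.1 ⊆ Icc p q →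
        ∃ v ∈ ears n T.1, v ∈ Icc p q := by
      intro S hS T hT hST p q hq hsub
      exact ears_not_separated (by omega) S.2 T.2 (hF.2 S hS T hT hST) (by omega) hsub
    by_cases h1 : C2 r (ears n T0.1)
    · refine class1 hr F hF.1 (fun S : Tri n => ears n S.1) hsub hcard hd hns ?_
      intro S hS
      by_contra h2
      have h := hcon' S hS T0 hT0
      have h3 := hsmall S hS
      rw [col_of_not_C2 (by omega) h2, col_of_C2 (by omega) h1] at h
      omega
    · refine class0 hr F hF.1 (fun S : Tri n => ears n S.1) hsub hd hns ?_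
      intro S hS h2
      have h := hcon' S hS T0 hT0
      have h3 := hsmall S hS
      rw [col_of_C2 (by omega) h2, col_of_not_C2 (by omega) h1] at h
      omega

/-- For every `r ≥ 3` one has `χ(KG^r(𝒯_n)) ≤ ⌊(n - 3) / (r - 1)⌋` for all `n ≥ 3 r - 1`, and
`χ(KG^r(𝒯_n)) < ⌈(n - r) / (r - 1)⌉` for infinitely many `n`. -/
theorem result : ∀ r : ℕ, 3 ≤ r →
    (∀ n : ℕ, 3 * r - 1 ≤ n → chi r n ≤ (n - 3) / (r - 1)) ∧
    (∀ n₀ : ℕ, ∃ n : ℕ, n₀ ≤ n ∧ (chi r n : ℤ) < ⌈((n : ℚ) - r) / ((r : ℚ) - 1)⌉) := by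
  intro r hr
  have h1 : ∀ n : ℕ, 3 * r - 1 ≤ n → chi r n ≤ (n - 3) / (r - 1) :=
    fun n hn => Nat.sInf_le (colorable hr hn)
  refine ⟨h1, ?_⟩
  intro n₀
  obtain ⟨s, rfl⟩ : ∃ s, r = s + 1 := ⟨r - 1, by omega⟩
  have hs : 2 ≤ s := by omega
  have hms : n₀ + 3 ≤ (n₀ + 3) * s := Nat.le_mul_of_pos_right _ (by omega)
  have hms2 : 3 * s ≤ (n₀ + 3) * s := Nat.mul_le_mul_right s (by omega)
  refine ⟨(n₀ + 3) * s + 2, by omega, ?_⟩
  have h2 := h1 ((n₀ + 3) * s + 2) (by omega)
  have h3 : ((n₀ + 3) * s + 2 - 3) / (s + 1 - 1) = n₀ + 2 := by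
    rw [Nat.add_sub_cancel, Nat.div_eq_iff (by omega)]
    have e : (n₀ + 3) * s = (n₀ + 2) * s + s := by ring
    omega
  rw [h3] at h2
  have hsq : (2 : ℚ) ≤ (s : ℚ) := by exact_mod_cast hs
  have h4 : ((n₀ : ℤ) + 2) < ⌈((((n₀ + 3) * s + 2 : ℕ) : ℚ) - ((s + 1 : ℕ) : ℚ)) /
      (((s + 1 : ℕ) : ℚ) - 1)⌉ := by
    rw [Int.lt_ceil]
    push_cast
    rw [lt_div_iff₀ (by linarith)]
    nlinarith
  have h5 : (chi (s + 1) ((n₀ + 3) * s + 2) : ℤ) ≤ (n₀ : ℤ) + 2 := by exact_mod_cast h2
  exact lt_of_le_of_lt h5 h4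

end Pool.Agent.Results.MP_ea1cff_co.AllUniformities
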